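import Pool.Agent.R790.Rtd.Fin

/-! The assertion of Q1 fails: there are a connected bigraph `G` (22 vertices, 25 edges) with a
reflective tree decomposition with three bags on a path, each bag inducing two four-cycles joined
by a path with three edges, such that the core weakly dominates the four-cycles induced on the
intersections of adjacent bags, but `G` does not weakly dominate the sub-bigraph induced on the
union of the first and the last bag. -/

set_option autoImplicit false

namespace Pool.Agent.Results.MP_3a8b9a_co.DumbbellCounterexample

open Pool.Agent.R790.Rtd

/-- The assertion of Q1 is false. -/
theorem result : ¬ Assertion := main

end Pool.Agent.Results.MP_3a8b9a_co.DumbbellCounterexample
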